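import Pool.Agent.W223.VD.Stms

/-!
# VD-FC2: the number of fields with a generator of given size and small trace (helper500)
-/

set_option autoImplicit false

namespace Pool.Agent.W500.VD.FC2

open Polynomial IntermediateField NumberField

lemma extract {K : Type} [Field K] [NumberField K] {n : ℕ} (hn : 1 ≤ n)
    (hK : Module.finrank ℚ K = n) (a : 𝓞 K) (hgen : ℚ⟮(a : K)⟯ = ⊤)
    (h0 : 0 ≤ Algebra.trace ℤ (𝓞 K) a) (h1 : Algebra.trace ℤ (𝓞 K) a < n) {T : ℝ}
    (hT : ∀ σ : K →+* ℂ, ‖σ (a : K)‖ ≤ T) :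
    ∃ p : ℤ[X], p.Monic ∧ p.natDegree = n ∧ aeval (a : K) p = 0 ∧
      -((n : ℤ) - 1) ≤ p.coeff (n - 1) ∧ p.coeff (n - 1) ≤ 0 ∧
      ∀ i, (|p.coeff i| : ℝ) ≤ 2 ^ n * T ^ (n - i) := by
  have hint : IsIntegral ℤ (a : K) := a.2
  have hint' : IsIntegral ℚ (a : K) := hint.tower_top
  set p : ℤ[X] := minpoly ℤ (a : K) with hp
  have hmap : minpoly ℚ (a : K) = p.map (algebraMap ℤ ℚ) :=
    minpoly.isIntegrallyClosed_eq_field_fractions' ℚ hint
  have hmon : p.Monic := minpoly.monic hint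
  have hdegQ : (minpoly ℚ (a : K)).natDegree = n := by
    have h2 := adjoin.finrank hint'
    rw [hgen, finrank_top', hK] at h2
    exact h2.symm
  have hdeg : p.natDegree = n := by
    rw [← hdegQ, hmap, hmon.natDegree_map]
  have htr : Algebra.trace ℚ K (a : K) = -(minpoly ℚ (a : K)).nextCoeff := by
    rw [trace_eq_finrank_mul_minpoly_nextCoeff, hgen, IntermediateField.finrank_top]
    simp
  have hnc : (minpoly ℚ (a : K)).nextCoeff = ((p.coeff (n - 1) : ℤ) : ℚ) := by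
    rw [nextCoeff_of_natDegree_pos (by rw [hdegQ]; omega), hdegQ, hmap, coeff_map]
    rfl
  have htz : Algebra.trace ℤ (𝓞 K) a = -p.coeff (n - 1) := by
    have h2 : ((Algebra.trace ℤ (𝓞 K) a : ℤ) : ℚ) = Algebra.trace ℚ K (a : K) :=
      Algebra.coe_trace_int a
    rw [htr, hnc] at h2
    exact_mod_cast h2
  refine ⟨p, hmon, hdeg, minpoly.aeval ℤ (a : K), by omega, by omega, fun i => ?_⟩
  have hmonQ : (minpoly ℚ (a : K)).Monic := minpoly.monic hint'
  have h3 : ∀ z ∈ ((minpoly ℚ (a : K)).map (algebraMap ℚ ℂ)).roots, ‖z‖ ≤ T := by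
    intro z hz
    have hz' : z ∈ (minpoly ℚ (a : K)).rootSet ℂ := by
      rw [mem_rootSet]
      refine ⟨hmonQ.ne_zero, ?_⟩
      have := isRoot_of_mem_roots hz
      rw [IsRoot.def, eval_map_algebraMap] at this
      exact this
    rw [← Embeddings.range_eval_eq_rootSet_minpoly] at hz'
    obtain ⟨σ, rfl⟩ := hz'
    exact hT σ
  have h4 := coeff_le_of_roots_le (f := algebraMap ℚ ℂ) i hmonQ (IsAlgClosed.splits _) h3
  rw [hdegQ, coeff_map, hmap, coeff_map] at h4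
  have h5 : ‖(algebraMap ℚ ℂ) ((algebraMap ℤ ℚ) (p.coeff i))‖ = (|p.coeff i| : ℝ) := by
    simp
  rw [h5] at h4
  have hT0 : 0 ≤ T := by
    obtain ⟨σ⟩ : Nonempty (K →+* ℂ) := inferInstance
    exact (norm_nonneg _).trans (hT σ)
  refine h4.trans ?_
  rw [mul_comm]
  refine mul_le_mul_of_nonneg_right ?_ (pow_nonneg hT0 _)
  exact_mod_cast Nat.choose_le_two_pow _ _

lemma recover {K : IntermediateField ℚ ℂ} (inst : Algebra ℚ K) (a : K)
    (h : @IntermediateField.adjoin ℚ _ K _ inst {a} = ⊤) : K = ℚ⟮(a : ℂ)⟯ := by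
  have e : inst = K.algebra' := Subsingleton.elim _ _
  subst e
  have h1 := lift_adjoin_simple ℚ K a
  rw [h, lift_top] at h1
  exact h1

lemma sum_exp (n : ℕ) (hn : 1 ≤ n) :
    ((∑ i : Fin n, (if (i : ℕ) + 1 = n then 0 else n - (i : ℕ)) : ℕ) : ℝ) =
      (n : ℝ) * (n + 1) / 2 - 1 := by
  obtain ⟨m, rfl⟩ : ∃ m, n = m + 1 := ⟨n - 1, by omega⟩
  rw [Fin.sum_univ_castSucc]
  have h1 : ∀ i : Fin m, (if ((Fin.castSucc i : Fin (m + 1)) : ℕ) + 1 = m + 1 then 0
      else m + 1 - ((Fin.castSucc i : Fin (m + 1)) : ℕ)) = m + 1 - (i : ℕ) := by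
    intro i
    have := i.2
    rw [Fin.val_castSucc, if_neg (by omega)]
  rw [Finset.sum_congr rfl (fun i _ => h1 i)]
  have h2 : (if ((Fin.last m : Fin (m + 1)) : ℕ) + 1 = m + 1 then 0
      else m + 1 - ((Fin.last m : Fin (m + 1)) : ℕ)) = 0 := by
    rw [Fin.val_last, if_pos rfl]
  rw [h2, add_zero, ← Finset.sum_range (fun i => m + 1 - i), ← Finset.sum_range_reflect]
  have h3 : ∀ j ∈ Finset.range m, m + 1 - (m - 1 - j) = j + 2 := by
    intro j hj
    rw [Finset.mem_range] at hj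
    omega
  rw [Finset.sum_congr rfl h3]
  push_cast
  have h4 : ∀ m : ℕ, ∑ j ∈ Finset.range m, ((j : ℝ) + 2) = (m : ℝ) * (m - 1) / 2 + 2 * m := by
    intro m
    induction m with
    | zero => simp
    | succ m ih => rw [Finset.sum_range_succ, ih]; push_cast; ring
  rw [h4]
  ring

/-- the box of the coefficient vectors -/
noncomputable def box (n : ℕ) (T : ℝ) : Finset (Fin n → ℤ) :=
  Fintype.piFinset fun i => if (i : ℕ) + 1 = n then Finset.Icc (-((n : ℤ) - 1)) 0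
    else Finset.Icc (-(⌊(2 : ℝ) ^ n * T ^ (n - (i : ℕ))⌋₊ : ℤ)) ⌊(2 : ℝ) ^ n * T ^ (n - (i : ℕ))⌋₊

lemma card_box (n : ℕ) (hn : 1 ≤ n) (T : ℝ) (hT : 1 ≤ T) :
    ((box n T).card : ℝ) ≤ (3 * 2 ^ n * n) ^ n * T ^ ((n : ℝ) * (n + 1) / 2 - 1) := by
  have hn' : (1 : ℝ) ≤ n := by exact_mod_cast hn
  have h2n : (1 : ℝ) ≤ 2 ^ n := one_le_pow₀ (by norm_num)
  unfold box
  rw [Fintype.card_piFinset]
  push_cast
  have h1 : ∀ i : Fin n, (((if (i : ℕ) + 1 = n then Finset.Icc (-((n : ℤ) - 1)) 0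
      else Finset.Icc (-(⌊(2 : ℝ) ^ n * T ^ (n - (i : ℕ))⌋₊ : ℤ))
        ⌊(2 : ℝ) ^ n * T ^ (n - (i : ℕ))⌋₊).card : ℕ) : ℝ) ≤
      (3 * 2 ^ n * n) * T ^ (if (i : ℕ) + 1 = n then 0 else n - (i : ℕ)) := by
    intro i
    split_ifs with h
    · rw [Int.card_Icc, pow_zero, mul_one]
      have h3 : ((0 + 1 - -((n : ℤ) - 1)).toNat : ℝ) = n := by
        have : (0 + 1 - -((n : ℤ) - 1)).toNat = n := by omega
        rw [this]
      rw [h3]
      nlinarith
    · rw [Int.card_Icc]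
      set B := ⌊(2 : ℝ) ^ n * T ^ (n - (i : ℕ))⌋₊ with hB
      have h4 : (((B : ℤ) + 1 - -(B : ℤ)).toNat : ℝ) = 2 * B + 1 := by
        have : ((B : ℤ) + 1 - -(B : ℤ)).toNat = 2 * B + 1 := by omega
        rw [this]
        push_cast
        ring
      rw [h4]
      have hTp : (1 : ℝ) ≤ T ^ (n - (i : ℕ)) := one_le_pow₀ hT
      have h5 : (B : ℝ) ≤ 2 ^ n * T ^ (n - (i : ℕ)) := Nat.floor_le (by positivity)
      have h6 : (1 : ℝ) ≤ 2 ^ n * T ^ (n - (i : ℕ)) := one_le_mul_of_one_le_of_one_le h2n hTp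
      nlinarith
  refine (Finset.prod_le_prod (fun i _ => by positivity) (fun i _ => h1 i)).trans ?_
  rw [Finset.prod_mul_distrib, Finset.prod_const, Finset.card_univ, Fintype.card_fin,
    Finset.prod_pow_eq_pow_sum]
  refine mul_le_mul_of_nonneg_left (le_of_eq ?_) (by positivity)
  rw [← sum_exp n hn, Real.rpow_natCast]

lemma count {n : ℕ} (hn : 1 ≤ n) {T : ℝ} (hT : 1 ≤ T) (E : Finset (IntermediateField ℚ ℂ))
    (hE : ∀ K ∈ E, ∃ (α : ℂ) (p : ℤ[X]), K = ℚ⟮α⟯ ∧ p.Monic ∧ p.natDegree = n ∧ aeval α p = 0 ∧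
      -((n : ℤ) - 1) ≤ p.coeff (n - 1) ∧ p.coeff (n - 1) ≤ 0 ∧
      ∀ i, (|p.coeff i| : ℝ) ≤ 2 ^ n * T ^ (n - i)) :
    (E.card : ℝ) ≤ (n * (3 * 2 ^ n * n) ^ n) * T ^ ((n : ℝ) * (n + 1) / 2 - 1) := by
  classical
  choose! α p hK hmon hdeg hroot hc1 hc2 hc using hE
  set v : IntermediateField ℚ ℂ → Fin n → ℤ := fun K i => (p K).coeff i with hv
  have heq : ∀ K ∈ E, ∀ L ∈ E, v K = v L → p K = p L := by
    intro K hKE L hLE h
    ext i
    rcases lt_trichotomy i n with hi | hi | hi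
    · exact congrFun h ⟨i, hi⟩
    · have h1 := hmon K hKE
      have h2 := hmon L hLE
      rw [Monic, leadingCoeff, hdeg K hKE] at h1
      rw [Monic, leadingCoeff, hdeg L hLE] at h2
      rw [hi, h1, h2]
    · rw [coeff_eq_zero_of_natDegree_lt (by rw [hdeg K hKE]; exact hi),
        coeff_eq_zero_of_natDegree_lt (by rw [hdeg L hLE]; exact hi)]
  have h2 : E.card ≤ n * (E.image v).card := by
    refine Finset.card_le_mul_card_image E n fun a ha => ?_
    obtain ⟨K₀, hK₀, rfl⟩ := Finset.mem_image.mp ha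
    have h3 : (E.filter fun K => v K = v K₀).card ≤
        ((p K₀).map (Int.castRingHom ℂ)).roots.toFinset.card := by
      refine Finset.card_le_card_of_injOn α ?_ ?_
      · intro K hKm
        rw [Finset.mem_coe, Finset.mem_filter] at hKm
        rw [Finset.mem_coe, Multiset.mem_toFinset, mem_roots']
        refine ⟨?_, ?_⟩
        · rw [Polynomial.map_ne_zero_iff (RingHom.injective_int _)]
          exact (hmon K₀ hK₀).ne_zero
        · have h5 := hroot K hKm.1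
          rw [heq K hKm.1 K₀ hK₀ hKm.2] at h5
          rw [IsRoot.def, eval_map]
          rw [aeval_def] at h5
          exact h5
      · intro K hKm L hLm h
        rw [Finset.mem_coe, Finset.mem_filter] at hKm hLm
        rw [hK K hKm.1, hK L hLm.1, h]
    refine h3.trans ((Multiset.toFinset_card_le _).trans ((card_roots' _).trans ?_))
    rw [natDegree_map_eq_of_injective (RingHom.injective_int _)]
    exact (hdeg K₀ hK₀).le
  have h3 : (E.image v) ⊆ box n T := by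
    intro u hu
    obtain ⟨K, hKE, rfl⟩ := Finset.mem_image.mp hu
    unfold box
    rw [Fintype.mem_piFinset]
    intro i
    split_ifs with h
    · rw [Finset.mem_Icc]
      have h4 : (i : ℕ) = n - 1 := by omega
      have h5 : v K i = (p K).coeff (n - 1) := by
        simp only [hv, h4]
      rw [h5]
      exact ⟨hc1 K hKE, hc2 K hKE⟩
    · rw [Finset.mem_Icc, ← abs_le]
      have h5 : ((v K i).natAbs : ℝ) ≤ 2 ^ n * T ^ (n - (i : ℕ)) := by
        have := hc K hKE i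
        rw [Nat.cast_natAbs]
        push_cast
        exact this
      have h6 := Nat.le_floor h5
      rw [Int.abs_eq_natAbs]
      exact_mod_cast h6
  have h4 : (E.card : ℝ) ≤ n * ((box n T).card : ℝ) := by
    have : E.card ≤ n * (box n T).card :=
      h2.trans (Nat.mul_le_mul_left _ (Finset.card_le_card h3))
    exact_mod_cast this
  refine h4.trans ?_
  rw [mul_assoc]
  exact mul_le_mul_of_nonneg_left (card_box n hn T hT) (Nat.cast_nonneg _)

theorem t : Pool.Agent.W223.VD.StmtFC2 := by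
  intro n hn
  have hn' : (1 : ℝ) ≤ n := by exact_mod_cast hn
  have h2n : (1 : ℝ) ≤ 2 ^ n := one_le_pow₀ (by norm_num)
  have hC : (1 : ℝ) ≤ n * (3 * 2 ^ n * n) ^ n := by
    refine one_le_mul_of_one_le_of_one_le hn' (one_le_pow₀ ?_)
    nlinarith
  refine ⟨n * (3 * 2 ^ n * n) ^ n, hC, fun T hT => ?_⟩
  refine Pool.Agent.H813R3.Voj.ncard_le_of_finset _ _ fun E hE => count hn hT E fun K hK => ?_
  obtain ⟨hNF, hfr, a, hgen, h0, h1, hσ⟩ := hE hK
  obtain ⟨p, hp1, hp2, hp3, hp4, hp5, hp6⟩ := extract hn hfr a hgen h0 h1 hσ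
  refine ⟨(((a : K) : ℂ)), p, recover _ (a : K) hgen, hp1, hp2, ?_, hp4, hp5, hp6⟩
  have h2 : ((aeval (a : K) p : K) : ℂ) = 0 := by rw [hp3]; rfl
  rw [← h2]
  exact (Polynomial.aeval_algebraMap_apply ℂ (a : K) p)

end Pool.Agent.W500.VD.FC2
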